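import Pool.Agent.R979.MD.Final
import Pool.Agent.R979.MD.TREE
import Pool.Agent.R979.MD.LYAP
import Pool.Agent.R979.MD.TH
import Pool.Agent.R979.MD.PSI
import Pool.Agent.R979.MD.KEPS
import Pool.Agent.R979.MD.AE
import Pool.Agent.R979.MD.EN
import Pool.Agent.R979.MD.CAP
import Pool.Agent.R979.MD.POL
import Pool.Agent.R979.MD.CMP
import Pool.Agent.R979.MD.RW
import Pool.Agent.R979.MD.BIG
import Pool.Agent.R671.DR.EX

/-!
# MP_19f6dc_an, Q1: the capacitary lower endpoint for Möbius de Rham measures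

Full answer: the property holds exactly when it is not the case that `r₀ = r₁` and
`h(p₀(r₁)) ≤ h(p₀(0))`.
-/

namespace Pool.Agent.Results.MP_19f6dc_an.CapacitaryEndpoint

open MeasureTheory Set Pool.Agent.R979.MD

/-- For all trapping parameters `(l, g, q) = (λ, γ, q)`, the de Rham function `f` and its measure
`μ = μ_f` exist, and for every such pair: every `d₀`-polar Borel set `K ⊆ [0,1]` is `μ_f`-null
if and only if it is not true that `r₀ = r₁` and `h(p₀(r₁)) ≤ h(p₀(0))`. -/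
theorem result (l g q : ℝ) (h : Trap l g q) :
    (∃ f : ℝ → ℝ, IsDeRham l g q f ∧ ∃ μ : Measure ℝ, IsProbabilityMeasure μ ∧
      ∀ x ∈ Icc (0 : ℝ) 1, μ (Ico 0 x) = ENNReal.ofReal (f x)) ∧
    ∀ f : ℝ → ℝ, IsDeRham l g q f → ∀ μ : Measure ℝ, IsProbabilityMeasure μ →
      (∀ x ∈ Icc (0 : ℝ) 1, μ (Ico 0 x) = ENNReal.ofReal (f x)) →
      ((∀ K : Set ℝ, MeasurableSet K → K ⊆ Icc 0 1 → IsPolar (d0 l g q) K → μ K = 0) ↔
        ¬ (r0 l g = r1 g q ∧ ent (p0 g (r1 g q)) ≤ ent (p0 g 0))) := by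
  refine ⟨?_, fun f hf μ hp hμ => ?_⟩
  · obtain ⟨f, μ, hF⟩ := Pool.Agent.R671.DR.exists_deRham l g q h.2.2.2.1 h.2.1 h.2.2.1 h.2.2.2.2
    obtain ⟨h1, h2, h3, h4, h5, h6, h7, h8, h9⟩ := hF
    exact ⟨f, ⟨h1, h2, h3, h4, fun x hx => ⟨h5 x hx, h6 x hx⟩⟩, μ, ⟨h7⟩, h9⟩
  · exact main t_TREE t_LYAP t_TH (t_PSI t_TH) t_KEPS t_AE (t_CAP t_EN) t_POL t_CMP t_RW t_BIG
      l g q h f hf μ hμ

end Pool.Agent.Results.MP_19f6dc_an.CapacitaryEndpoint
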